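import Pool.Agent.H9.FE.Pr

/-!
# The four exponentials conjecture for the values of rational functions

Let `E` be a nonzero real polynomial of degree at most `m`, let the `P i j`, `Q i j` (`i, j = 0, 1`) divide
powers of `E`, let the rational functions `R i j = P i j / Q i j` be not all constant, and let `q i j` be
real polynomials of degree at most `δ`. For all but at most `93 (m + δ)` real numbers `x` with
`E x ≠ 0` the matrix of the numbers `log |R i j (x)| + q i j (x)` satisfies the assertion of the
four exponentials conjecture: if its rows are linearly independent over `ℚ` and its columns are linearly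
independent over `ℚ`, its determinant is not zero. The bound does not depend on the orders of the zeros and
poles of the `R i j`.

Proof. (a) With `x = ξ + t` or `x = 1 / t` the determinant is `t ^ (-2 K)` times `A L ^ 2 + B L + C` where
`L = log |t|` and `A`, `B`, `C` are analytic at `t = 0`. Such a function has no zeros near `t = 0`,
`t ≠ 0`, or `A = B = C = 0`. Since the projective line is connected and compact, the determinant has
finitely many zeros or vanishes at all but finitely many points. In the second case let `β` be a zero or a
pole of one of the `R i j` on the projective line or in the complex plane; if there are none on the real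
projective line, one continues the functions to the largest disc around `0` without zeros and poles, and
takes `β` on its boundary. Near `β` the functions are `u i j + d i j L` with analytic `u i j` and the
orders `d i j` of the `R i j` at `β`. If `d 0 0 ≠ 0`, the vanishing of the coefficients of `L ^ 2`, `L` and
`1` gives `(d 0 0 u 0 1 - d 0 1 u 0 0) (d 0 0 u 1 0 - d 1 0 u 0 0) = 0`, so one of the two factors is zero,
and the columns or the rows are proportional with a rational quotient.
(b) The derivatives of the functions `log |R i j| + q i j` are quotients of polynomials of degree at most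
`m + δ` by `E`. If the determinant does not vanish identically, its derivative is a linear form in these
functions with such coefficients; the functions are eliminated one after the other by division by their
coefficients and differentiation, and Rolle's theorem bounds the number of the zeros.
(c) For `n + 1` variables, one of the functions depends on some coordinate `k`: `E` times its logarithmic
derivative with respect to `k` is a nonzero polynomial of degree at most `m`. By the lemma of Schwartz and
Zippel it vanishes at no more than `m |S| ^ n` points of the grid `S ^ (n + 1)`; through the others, (b) is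
applied to the `|S| ^ n` lines in the direction of `k`.
-/

set_option autoImplicit false

open Polynomial Pool.Agent.H9.FE.Sr

namespace Pool.Agent.Results.MP_bbc1fa_nt.RationalFunctions

/-- **The four exponentials conjecture for the values of rational functions, with a uniform bound for the
number of the exceptions.** `Admissible E P Q m`: the `P i j`, `Q i j` divide powers of `E ≠ 0`, the degree
of `E` is at most `m`, and the functions `P i j / Q i j` are not all constant.
(1) Real coefficients; `q i j` real polynomials of degree at most `δ`. The assertion of the conjecture holds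
for the matrix of the numbers `log |P i j (x) / Q i j (x)| + q i j (x)` for all but at most `93 (m + δ)` of
the real numbers `x` with `E (x) ≠ 0`.
(2) Rational coefficients. The conjecture holds for the rational numbers `|P i j (x) / Q i j (x)|` for all
but at most `93 m` of the rational numbers `x` with `E (x) ≠ 0`.
(3) Rational coefficients. For all positive rational numbers `b i j` the conjecture holds for the rational
numbers `b i j ^ x |P i j (x) / Q i j (x)|` for all but at most `93 (m + 1)` of the integers `x` with
`E (x) ≠ 0`.
(4) The same for `n + 1` variables: for the points of a grid `S ^ (n + 1)` with `E (x) ≠ 0`, where `S` is a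
finite set of real numbers in (1), of rational numbers in (2), of integers in (3), with at most
`94 (m + δ) |S| ^ n`, `94 m |S| ^ n`, `94 (m + 1) |S| ^ n` exceptions; in (3) the factor is a product of
powers `(b i j k) ^ (x k)`. -/
theorem result :
    (∀ (m δ : ℕ) (E : ℝ[X]) (P Q q : Fin 2 → Fin 2 → ℝ[X]), Admissible E P Q m →
      (∀ i j, (q i j).natDegree ≤ δ) →
      {x : ℝ | E.eval x ≠ 0 ∧ ¬ Four (Matrix.of fun i j =>
        Real.log |(P i j).eval x / (Q i j).eval x| + (q i j).eval x)}.encard ≤ 93 * (m + δ)) ∧
    (∀ (m : ℕ) (E : ℚ[X]) (P Q : Fin 2 → Fin 2 → ℚ[X]), Admissible E P Q m →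
      {x : ℚ | E.eval x ≠ 0 ∧ ¬ FourExp fun i j => |(P i j).eval x / (Q i j).eval x|}.encard ≤
        93 * m ∧
      ∀ b : Fin 2 → Fin 2 → ℚ, (∀ i j, 0 < b i j) →
        {x : ℤ | E.eval (x : ℚ) ≠ 0 ∧ ¬ FourExp fun i j =>
          b i j ^ x * |(P i j).eval (x : ℚ) / (Q i j).eval (x : ℚ)|}.encard ≤ 93 * (m + 1)) ∧
    (∀ (n m δ : ℕ) (E : MvPolynomial (Fin (n + 1)) ℝ)
      (P Q q : Fin 2 → Fin 2 → MvPolynomial (Fin (n + 1)) ℝ), AdmissibleMv E P Q m →
      (∀ i j, (q i j).totalDegree ≤ δ) → ∀ S : Finset ℝ,
      {x : Fin (n + 1) → ℝ | (∀ k, x k ∈ S) ∧ MvPolynomial.eval x E ≠ 0 ∧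
        ¬ Four (Matrix.of fun i j =>
          Real.log |MvPolynomial.eval x (P i j) / MvPolynomial.eval x (Q i j)| +
          MvPolynomial.eval x (q i j))}.encard ≤ 94 * (m + δ) * S.card ^ n) ∧
    ∀ (n m : ℕ) (E : MvPolynomial (Fin (n + 1)) ℚ)
      (P Q : Fin 2 → Fin 2 → MvPolynomial (Fin (n + 1)) ℚ), AdmissibleMv E P Q m →
      (∀ S : Finset ℚ, {x : Fin (n + 1) → ℚ | (∀ k, x k ∈ S) ∧ MvPolynomial.eval x E ≠ 0 ∧
        ¬ FourExp fun i j => |MvPolynomial.eval x (P i j) / MvPolynomial.eval x (Q i j)|}.encard ≤
          94 * m * S.card ^ n) ∧
      ∀ b : Fin 2 → Fin 2 → Fin (n + 1) → ℚ, (∀ i j k, 0 < b i j k) → ∀ S : Finset ℤ,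
        {x : Fin (n + 1) → ℤ | (∀ k, x k ∈ S) ∧ MvPolynomial.eval (fun k => (x k : ℚ)) E ≠ 0 ∧
          ¬ FourExp fun i j => (∏ k, b i j k ^ x k) *
            |MvPolynomial.eval (fun k => (x k : ℚ)) (P i j) /
              MvPolynomial.eval (fun k => (x k : ℚ)) (Q i j)|}.encard ≤
                94 * (m + 1) * S.card ^ n :=
  main

end Pool.Agent.Results.MP_bbc1fa_nt.RationalFunctions
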